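import Pool.Agent.Lib.MP_534936_co.TK.K
import Pool.Agent.Lib.MP_534936_co.TK.Comp
import Pool.Agent.Lib.MP_534936_co.TT32.Kempe2

set_option autoImplicit false

namespace Pool.Agent.Lib.MP_534936_co.TT32

open Pool.Agent.Lib.MP_534936_co.TK

universe u w

/-- a star with centre `v` over a family of disjoint connected pairwise touching sets that touch `v` -/
theorem add_vertex {V : Type u} (G : SimpleGraph V) (v : V) {J : Type w} [Finite J] (T : J → Set V)
    (hT : ∀ i, (G.induce (T i)).Connected) (hv : ∀ i, v ∉ T i) (hvT : ∀ i, ∃ a ∈ T i, G.Adj v a)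
    (hd : ∀ i j, i ≠ j → Disjoint (T i) (T j) ∧ ∃ x ∈ T i, ∃ y ∈ T j, G.Adj x y) :
    ∃ f : Fin (Nat.card J + 1) → Set V, f 0 = {v} ∧ (∀ i, (G.induce (f i)).Connected) ∧
      ∀ i j, i ≠ j → Disjoint (f i) (f j) ∧ ∃ x ∈ f i, ∃ y ∈ f j, G.Adj x y := by
  classical
  haveI : Fintype J := Fintype.ofFinite J
  let e : Fin (Nat.card J) ≃ J := (Finite.equivFin J).symm
  refine ⟨Fin.cases {v} fun i => T (e i), rfl, ?_, ?_⟩
  · intro i
    refine Fin.cases ?_ (fun i => ?_) i
    · show (G.induce ({v} : Set V)).Connected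
      haveI : Subsingleton ({v} : Set V) := by
        rw [Set.subsingleton_coe]
        exact Set.subsingleton_singleton
      haveI : Nonempty ({v} : Set V) := ⟨⟨v, rfl⟩⟩
      exact ⟨fun a b => by rw [Subsingleton.elim a b]⟩
    · exact hT (e i)
  · intro i j
    refine Fin.cases ?_ (fun i => ?_) i
    · refine Fin.cases ?_ (fun j => ?_) j
      · intro h
        exact absurd rfl h
      · intro _
        obtain ⟨a, ha, hva⟩ := hvT (e j)
        refine ⟨?_, v, rfl, a, ha, hva⟩
        show Disjoint ({v} : Set V) (T (e j))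
        rw [Set.disjoint_singleton_left]
        exact hv (e j)
    · refine Fin.cases ?_ (fun j => ?_) j
      · intro _
        obtain ⟨a, ha, hva⟩ := hvT (e i)
        refine ⟨?_, a, ha, v, rfl, hva.symm⟩
        show Disjoint (T (e i)) ({v} : Set V)
        rw [Set.disjoint_singleton_right]
        exact hv (e i)
      · intro hij
        have hij' : i ≠ j := fun h => hij (by rw [h])
        exact hd (e i) (e j) fun h => hij' (e.injective h)

/-- the clique bound -/
theorem clique_bound {V : Type u} [Finite V] (G : SimpleGraph V) (v : V) (Q : Set V) (hQ : G.IsClique Q)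
    (hv : ∀ a ∈ Q, G.Adj v a) :
    ∃ f : Fin (Q.ncard + 1) → Set V, f 0 = {v} ∧ (∀ i, (G.induce (f i)).Connected) ∧
      ∀ i j, i ≠ j → Disjoint (f i) (f j) ∧ ∃ x ∈ f i, ∃ y ∈ f j, G.Adj x y := by
  classical
  have key := add_vertex G v (J := Q) (fun a => {(a : V)}) ?_ ?_ ?_ ?_
  · rw [show Nat.card Q = Q.ncard from Nat.card_coe_set_eq Q] at key
    exact key
  · intro a
    haveI : Subsingleton ({(a : V)} : Set V) := by
      rw [Set.subsingleton_coe]
      exact Set.subsingleton_singleton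
    haveI : Nonempty ({(a : V)} : Set V) := ⟨⟨a, rfl⟩⟩
    exact ⟨fun a b => by rw [Subsingleton.elim a b]⟩
  · intro a ha
    have h1 : v = (a : V) := ha
    exact G.ne_of_adj (hv a a.2) h1
  · intro a
    exact ⟨a, rfl, hv a a.2⟩
  · intro a b hab
    have hne : (a : V) ≠ b := fun h => hab (Subtype.ext h)
    refine ⟨?_, a, rfl, b, rfl, hQ a.2 b.2 hne⟩
    rw [Set.disjoint_singleton]
    exact hne

/-- the Kempe bound: `2N - |A| - |B|` rooted sets and `v` -/
theorem kempe_bound {V : Type u} [Finite V] (G : SimpleGraph V) (v : V) (N : ℕ)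
    (hG : ¬ G.Colorable N) (hc : (G.induce {a : V | a ≠ v}).Colorable N) (A B : Set V)
    (hA : G.IsClique A) (hB : G.IsClique B) (hAB : A ∪ B = G.neighborSet v) (hdis : Disjoint A B) :
    ∃ k : ℕ, 2 * N ≤ k + (A ∪ B).ncard ∧
    ∃ f : Fin (k + 1) → Set V, f 0 = {v} ∧ (∀ i, (G.induce (f i)).Connected) ∧
      ∀ i j, i ≠ j → Disjoint (f i) (f j) ∧ ∃ x ∈ f i, ∃ y ∈ f j, G.Adj x y := by
  classical
  haveI : Fintype V := Fintype.ofFinite V
  obtain ⟨c⟩ := hc
  -- every colour occurs on a neighbour of `v`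
  have hex : ∀ i : Fin N, ∃ a : {a : V | a ≠ v}, G.Adj v a ∧ c a = i := by
    intro i
    by_contra hno
    push Not at hno
    apply hG
    refine ⟨SimpleGraph.Coloring.mk (fun a => if h : a ≠ v then c ⟨a, h⟩ else i) ?_⟩
    intro a b hab
    by_cases ha : a = v
    · have hb : b ≠ v := by
        rintro rfl
        exact G.ne_of_adj hab ha
      rw [dif_neg (not_not.2 ha), dif_pos hb]
      subst ha
      exact fun he => hno ⟨b, hb⟩ hab he.symm
    · by_cases hb : b = v
      · rw [dif_pos ha, dif_neg (not_not.2 hb)]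
        subst hb
        exact hno ⟨a, ha⟩ hab.symm
      · rw [dif_pos ha, dif_pos hb]
        exact c.valid (v := ⟨a, ha⟩) (w := ⟨b, hb⟩) hab
  choose r hrv hrc using hex
  have hinj : Function.Injective fun i => (r i : V) := by
    intro i j hij
    have h1 : r i = r j := Subtype.ext hij
    rw [← hrc i, ← hrc j, h1]
  -- `P` = colours not on `B`, `R` = colours not on `A`
  let P : Set (Fin N) := {i | ∀ a : {a : V | a ≠ v}, (a : V) ∈ B → c a ≠ i}
  let R : Set (Fin N) := {i | ∀ a : {a : V | a ≠ v}, (a : V) ∈ A → c a ≠ i}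
  have hmem : ∀ a : {a : V | a ≠ v}, G.Adj v a → (a : V) ∈ A ∨ (a : V) ∈ B := by
    intro a ha
    have h1 : (a : V) ∈ A ∪ B := by
      rw [hAB]
      exact ha
    exact h1
  have hPA : ∀ i ∈ P, ∀ a : {a : V | a ≠ v}, G.Adj v a → c a = i → (a : V) ∈ A := by
    intro i hi a ha hai
    rcases hmem a ha with h | h
    · exact h
    · exact absurd hai (hi a h)
  have hRB : ∀ i ∈ R, ∀ a : {a : V | a ≠ v}, G.Adj v a → c a = i → (a : V) ∈ B := by
    intro i hi a ha hai
    rcases hmem a ha with h | h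
    · exact absurd hai (hi a h)
    · exact h
  have hvA : ∀ a : V, a ∈ A → G.Adj v a := by
    intro a ha
    have h1 : a ∈ A ∪ B := Or.inl ha
    rw [hAB] at h1
    exact h1
  have hvB : ∀ a : V, a ∈ B → G.Adj v a := by
    intro a ha
    have h1 : a ∈ A ∪ B := Or.inr ha
    rw [hAB] at h1
    exact h1
  -- two vertices of one clique with the same colour are equal
  have hsame : ∀ Q : Set V, G.IsClique Q → ∀ a b : {a : V | a ≠ v}, (a : V) ∈ Q → (b : V) ∈ Q →
      c a = c b → a = b := by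
    intro Q hQ a b ha hb hab
    by_contra hne
    have h1 : G.Adj (a : V) b := hQ ha hb fun h => hne (Subtype.ext h)
    exact c.valid (v := a) (w := b) h1 hab
  have hPN : ∀ i ∈ P, ∀ a : {a : V | a ≠ v}, G.Adj v a → c a = i → a = r i := by
    intro i hi a ha hai
    exact hsame A hA a (r i) (hPA i hi a ha hai) (hPA i hi (r i) (hrv i) (hrc i)) (by rw [hai, hrc])
  have hRN : ∀ i ∈ R, ∀ a : {a : V | a ≠ v}, G.Adj v a → c a = i → a = r i := by
    intro i hi a ha hai
    exact hsame B hB a (r i) (hRB i hi a ha hai) (hRB i hi (r i) (hrv i) (hrc i)) (by rw [hai, hrc])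
  have hPR : ∀ i, i ∈ P → i ∉ R := by
    intro i hi hi'
    exact hi' (r i) (hPA i hi (r i) (hrv i) (hrc i)) (hrc i)
  -- the numbers
  have hcnt : ∀ Q : Set V, G.IsClique Q → (∀ a ∈ Q, G.Adj v a) →
      {i : Fin N | ∀ a : {a : V | a ≠ v}, (a : V) ∈ Q → c a ≠ i}.ncard + Q.ncard = N := by
    intro Q hQ hvQ
    have h1 : {i : Fin N | ∀ a : {a : V | a ≠ v}, (a : V) ∈ Q → c a ≠ i} =
        (c '' {a : {a : V | a ≠ v} | (a : V) ∈ Q})ᶜ := by
      ext i
      constructor
      · intro hi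
        rintro ⟨a, ha, rfl⟩
        exact hi a ha rfl
      · intro hi a ha hai
        exact hi ⟨a, ha, hai⟩
    have h2 : (c '' {a : {a : V | a ≠ v} | (a : V) ∈ Q}).ncard = Q.ncard := by
      rw [Set.ncard_image_of_injOn]
      · rw [← Set.ncard_image_of_injective {a : {a : V | a ≠ v} | (a : V) ∈ Q}
          Subtype.val_injective]
        congr 1
        ext a
        constructor
        · rintro ⟨b, hb, rfl⟩
          exact hb
        · intro ha
          exact ⟨⟨a, fun h => G.ne_of_adj (hvQ a ha) h.symm⟩, ha, rfl⟩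
      · intro a ha b hb hab
        exact hsame Q hQ a b ha hb hab
    rw [h1, ← h2]
    have h3 := Set.ncard_add_ncard_compl (c '' {a : {a : V | a ≠ v} | (a : V) ∈ Q})
    rw [Nat.card_eq_fintype_card, Fintype.card_fin] at h3
    omega
  have hP : P.ncard + B.ncard = N := hcnt B hB hvB
  have hR : R.ncard + A.ncard = N := hcnt A hA hvA
  have hABc : (A ∪ B).ncard = A.ncard + B.ncard :=
    Set.ncard_union_eq hdis (Set.toFinite _) (Set.toFinite _)
  have hPRc : (P ∪ R).ncard = P.ncard + R.ncard := by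
    refine Set.ncard_union_eq ?_ (Set.toFinite _) (Set.toFinite _)
    rw [Set.disjoint_left]
    exact hPR
  -- Theorem K
  let side : Fin N → Bool := fun i => decide (i ∈ P)
  obtain ⟨f, hf1, hf2, hf3⟩ := model_exists (G.induce {a : V | a ≠ v}) c r hrc side
    (fun x y => x ∈ P ∧ y ∈ R)
    (fun x y h => ⟨decide_eq_true h.1, decide_eq_false fun h' => hPR y h' h.2⟩) (by
      intro x y hxy
      exact kempe_linked2 G v N hG c (fun a b hab => c.valid hab) r x y (hPN x hxy.1) (hRN y hxy.2))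
  let T : Fin N → Set V := fun i => Subtype.val '' {a : {a : V | a ≠ v} | f a = some i}
  have hT : ∀ i, (G.induce (T i)).Connected := by
    intro i
    have h1 := hf2 i
    let e : ((G.induce {a : V | a ≠ v}).induce {a | f a = some i}) →g G.induce (T i) :=
      { toFun := fun a => ⟨a.1.1, ⟨a.1, a.2, rfl⟩⟩
        map_rel' := fun hab => hab }
    have he : Function.Surjective e := by
      rintro ⟨_, ⟨a, ha, rfl⟩⟩
      exact ⟨⟨a, ha⟩, rfl⟩
    exact h1.map e he
  have hrT : ∀ i, (r i : V) ∈ T i := fun i => ⟨r i, hf1 i, rfl⟩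
  have hvT : ∀ i, v ∉ T i := by
    rintro i ⟨a, -, ha⟩
    exact a.2 ha
  have hdisj : ∀ i j, i ≠ j → Disjoint (T i) (T j) := by
    intro i j hij
    rw [Set.disjoint_left]
    rintro _ ⟨a, ha, rfl⟩ ⟨b, hb, hab⟩
    have h1 : b = a := Subtype.ext hab
    subst h1
    have h2 : f b = some i := ha
    have h3 : f b = some j := hb
    exact hij (Option.some.inj (h2.symm.trans h3))
  have hrP : ∀ i ∈ P, (r i : V) ∈ A := fun i hi => hPA i hi (r i) (hrv i) (hrc i)
  have hrR : ∀ i ∈ R, (r i : V) ∈ B := fun i hi => hRB i hi (r i) (hrv i) (hrc i)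
  have hadj : ∀ i j, i ∈ P ∪ R → j ∈ P ∪ R → i ≠ j → ∃ x ∈ T i, ∃ y ∈ T j, G.Adj x y := by
    intro i j hi hj hij
    have hne : (r i : V) ≠ r j := fun h => hij (hinj h)
    rcases hi with hi | hi
    · rcases hj with hj | hj
      · exact ⟨r i, hrT i, r j, hrT j, hA (hrP i hi) (hrP j hj) hne⟩
      · obtain ⟨a, b, ha, hb, hab⟩ := hf3 i j ⟨hi, hj⟩
        exact ⟨a, ⟨a, ha, rfl⟩, b, ⟨b, hb, rfl⟩, hab⟩
    · rcases hj with hj | hj
      · obtain ⟨a, b, ha, hb, hab⟩ := hf3 j i ⟨hj, hi⟩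
        exact ⟨b, ⟨b, hb, rfl⟩, a, ⟨a, ha, rfl⟩, hab.symm⟩
      · exact ⟨r i, hrT i, r j, hrT j, hB (hrR i hi) (hrR j hj) hne⟩
  obtain ⟨g, hg0, hg1, hg2⟩ := add_vertex G v (J := ((P ∪ R : Set (Fin N)))) (fun i => T i)
    (fun i => hT i) (fun i => hvT i) (fun i => ⟨r i, hrT i, hrv i⟩)
    (fun i j hij => ⟨hdisj i j fun h => hij (Subtype.ext h),
      hadj i j i.2 j.2 fun h => hij (Subtype.ext h)⟩)
  refine ⟨_, ?_, g, hg0, hg1, hg2⟩
  rw [show Nat.card ((P ∪ R : Set (Fin N))) = (P ∪ R).ncard from Nat.card_coe_set_eq _]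
  omega

/-- fewer sets, one of them a given single vertex -/
theorem shrink {V : Type u} (G : SimpleGraph V) (v : V) (k t : ℕ) (ht : 1 ≤ t) (htk : t ≤ k)
    (f : Fin k → Set V) (h0 : ∃ i, f i = {v}) (h1 : ∀ i, (G.induce (f i)).Connected)
    (h2 : ∀ i j, i ≠ j → Disjoint (f i) (f j) ∧ ∃ x ∈ f i, ∃ y ∈ f j, G.Adj x y) :
    ∃ g : Fin t → Set V, (∃ i, g i = {v}) ∧ (∀ i, (G.induce (g i)).Connected) ∧
      ∀ i j, i ≠ j → Disjoint (g i) (g j) ∧ ∃ x ∈ g i, ∃ y ∈ g j, G.Adj x y := by
  obtain ⟨i0, hi0⟩ := h0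
  let e : Fin k ≃ Fin k := Equiv.swap ⟨0, by omega⟩ i0
  refine ⟨fun i => f (e (Fin.castLE htk i)), ⟨⟨0, ht⟩, ?_⟩, fun i => h1 _, fun i j hij => ?_⟩
  · rw [← hi0]
    have h3 : e (Fin.castLE htk ⟨0, ht⟩) = i0 := Equiv.swap_apply_left _ _
    exact congrArg f h3
  · exact h2 _ _ fun h => hij (Fin.castLE_injective htk (e.injective h))

/-- a clique of a vertex-critical graph, not everything, extends to a complete model with one more branch set -/
theorem crit_clique_minor {V : Type u} [Finite V] (G : SimpleGraph V) (d : ℕ) (hG : ¬ G.Colorable d)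
    (hcrit : ∀ v : V, (G.induce {a : V | a ≠ v}).Colorable d) (Q : Set V) (hQ : G.IsClique Q)
    (hV : Q ≠ Set.univ) :
    ∃ f : Fin (Q.ncard + 1) → Set V, (∀ q ∈ Q, ∃ i, f i = {q}) ∧ (∀ i, (G.induce (f i)).Connected) ∧
      ∀ i j, i ≠ j → Disjoint (f i) (f j) ∧ ∃ x ∈ f i, ∃ y ∈ f j, G.Adj x y := by
  classical
  haveI : Fintype V := Fintype.ofFinite V
  have hcard : Fintype.card (Option Q) = Q.ncard + 1 := by
    rw [Fintype.card_option, ← Nat.card_eq_fintype_card, Nat.card_coe_set_eq]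
  let e : Fin (Q.ncard + 1) ≃ Option Q := (Fintype.equivFinOfCardEq hcard).symm
  let F : Option Q → Set V := fun o => o.elim Qᶜ (fun q => {q.1})
  have hFc : ∀ o, (G.induce (F o)).Connected := by
    intro o
    cases o with
    | none => exact critical_sub_clique_connected G d hG hcrit Q hQ hV
    | some q =>
      show (G.induce ({q.1} : Set V)).Connected
      haveI : Subsingleton ({q.1} : Set V) := by
        rw [Set.subsingleton_coe]
        exact Set.subsingleton_singleton
      haveI : Nonempty ({q.1} : Set V) := ⟨⟨q.1, rfl⟩⟩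
      exact ⟨fun a b => by rw [Subsingleton.elim a b]⟩
  have hFa : ∀ o o', o ≠ o' → Disjoint (F o) (F o') ∧ ∃ x ∈ F o, ∃ y ∈ F o', G.Adj x y := by
    intro o o' hne
    cases o with
    | none =>
      cases o' with
      | none => exact absurd rfl hne
      | some q =>
        obtain ⟨a, ha, hqa⟩ := critical_clique_touches G d hG hcrit Q hQ hV q.1 q.2
        refine ⟨?_, a, ha, q.1, rfl, hqa.symm⟩
        show Disjoint (Qᶜ : Set V) ({q.1} : Set V)
        rw [Set.disjoint_singleton_right]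
        exact fun h => h q.2
    | some q =>
      cases o' with
      | none =>
        obtain ⟨a, ha, hqa⟩ := critical_clique_touches G d hG hcrit Q hQ hV q.1 q.2
        refine ⟨?_, q.1, rfl, a, ha, hqa⟩
        show Disjoint ({q.1} : Set V) (Qᶜ : Set V)
        rw [Set.disjoint_singleton_left]
        exact fun h => h q.2
      | some q' =>
        have hqq : q.1 ≠ q'.1 := fun h => hne (by rw [Subtype.ext h])
        refine ⟨?_, q.1, rfl, q'.1, rfl, hQ q.2 q'.2 hqq⟩
        show Disjoint ({q.1} : Set V) ({q'.1} : Set V)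
        rw [Set.disjoint_singleton]
        exact hqq
  refine ⟨fun i => F (e i), fun q hq => ⟨e.symm (some ⟨q, hq⟩), ?_⟩, fun i => hFc _,
    fun i j hij => hFa _ _ (fun h => hij (e.injective h))⟩
  show F (e (e.symm (some ⟨q, hq⟩))) = {q}
  rw [Equiv.apply_symm_apply]
  rfl

/-- the three bounds together: `max (|A| + 2, |B| + 2, 2N + 1 - |A ∪ B|)` if `G` is not a clique -/
theorem three_bound {V : Type u} [Finite V] (G : SimpleGraph V) (v : V) (N t : ℕ)
    (hG : ¬ G.Colorable N) (hcrit : ∀ w : V, (G.induce {a : V | a ≠ w}).Colorable N) (A B : Set V)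
    (hA : G.IsClique A) (hB : G.IsClique B) (hAB : A ∪ B = G.neighborSet v)
    (ht1 : 1 ≤ t) (ht : t + min (A ∪ B).ncard (max N ((4 * N - 2) / 3)) ≤ 2 * N + 1) :
    ∃ f : Fin t → Set V, (∃ i, f i = {v}) ∧ (∀ i, (G.induce (f i)).Connected) ∧
      ∀ i j, i ≠ j → Disjoint (f i) (f j) ∧ ∃ x ∈ f i, ∃ y ∈ f j, G.Adj x y := by
  classical
  haveI : Fintype V := Fintype.ofFinite V
  set B' : Set V := B \ A with hB'
  have hU : A ∪ B' = A ∪ B := Set.union_sdiff_self
  have hdis : Disjoint A B' := Set.disjoint_sdiff_right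
  have hBc : G.IsClique B' := hB.subset Set.sdiff_subset
  have hcard : (A ∪ B).ncard = A.ncard + B'.ncard := by
    rw [← hU]
    exact Set.ncard_union_eq hdis (Set.toFinite _) (Set.toFinite _)
  have hvA : ∀ a ∈ A, G.Adj v a := by
    intro a ha
    have h1 : a ∈ A ∪ B := Or.inl ha
    rw [hAB] at h1
    exact h1
  have hvB : ∀ a ∈ B', G.Adj v a := by
    intro a ha
    have h1 : a ∈ A ∪ B := Or.inr ha.1
    rw [hAB] at h1
    exact h1
  -- the clique `Q + v`, and one more set if it is not everything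
  have hclique : ∀ Q : Set V, G.IsClique Q → (∀ a ∈ Q, G.Adj v a) →
      t ≤ Q.ncard + 2 → t ≤ N + 1 ∨ t ≤ Q.ncard + 1 →
      ∃ f : Fin t → Set V, (∃ i, f i = {v}) ∧ (∀ i, (G.induce (f i)).Connected) ∧
        ∀ i j, i ≠ j → Disjoint (f i) (f j) ∧ ∃ x ∈ f i, ∃ y ∈ f j, G.Adj x y := by
    intro Q hQ hvQ ht2 ht3
    have hvQ' : v ∉ Q := fun h => G.irrefl (hvQ v h)
    have hQ' : G.IsClique (insert v Q) := by
      rw [SimpleGraph.isClique_insert]
      exact ⟨hQ, fun b hb _ => hvQ b hb⟩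
    have hc' : (insert v Q).ncard = Q.ncard + 1 := Set.ncard_insert_of_notMem hvQ' (Set.toFinite _)
    by_cases hun : insert v Q = Set.univ
    · obtain ⟨f, hf0, hf1, hf2⟩ := clique_bound G v Q hQ hvQ
      refine shrink G v _ t ht1 ?_ f ⟨0, hf0⟩ hf1 hf2
      rcases ht3 with h | h
      · refine le_trans h ?_
        by_contra hlt
        push Not at hlt
        apply hG
        have h4 : Fintype.card V ≤ N := by
          rw [← Nat.card_eq_fintype_card, ← Set.ncard_univ, ← hun, hc']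
          omega
        exact G.colorable_of_fintype.mono h4
      · exact h
    · obtain ⟨f, hf0, hf1, hf2⟩ := crit_clique_minor G N hG hcrit (insert v Q) hQ' hun
      exact shrink G v _ t ht1 (by rw [hc']; omega) f (hf0 v (Set.mem_insert _ _)) hf1 hf2
  obtain ⟨k, hk, f, hf0, hf1, hf2⟩ := kempe_bound G v N hG (hcrit v) A B' hA hBc (by rw [hU, hAB]) hdis
  rw [hU] at hk
  by_cases h1 : t ≤ k + 1
  · exact shrink G v _ t ht1 h1 f ⟨0, hf0⟩ hf1 hf2
  · by_cases h2 : B'.ncard ≤ A.ncard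
    · exact hclique A hA hvA (by omega) (by omega)
    · exact hclique B' hBc hvB (by omega) (by omega)

end Pool.Agent.Lib.MP_534936_co.TT32
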